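import Mathlib

set_option autoImplicit false

namespace Pool.Agent.Results.MP_987c99_al.Counterexample

open MvPolynomial TensorProduct

/-- A Poisson bracket: a Lie bracket such that each `{a, -}` is a derivation. -/
structure Poisson (k P : Type) [Field k] [CommRing P] [Algebra k P] where
  br : P →ₗ[k] Derivation k P P
  self : ∀ a, br a a = 0
  jacobi : ∀ a b c, br a (br b c) + br b (br c a) + br c (br a b) = 0

section
variable {k P : Type} [Field k] [CommRing P] [Algebra k P] (B : Poisson k P)

lemma Poisson.skew (a b : P) : B.br a b = -B.br b a := by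
  have := B.self (a + b)
  simp only [map_add, Derivation.add_apply, B.self] at this
  linear_combination this

/-- The Poisson center. -/
def Poisson.center : Subalgebra k P where
  carrier := {z | ∀ a, B.br z a = 0}
  add_mem' h h' a := by simp [h a, h' a]
  mul_mem' {x y} h h' a := by
    rw [B.skew, Derivation.leibniz, B.skew a, B.skew a, h, h']
    simp
  algebraMap_mem' r a := by rw [B.skew, Derivation.map_algebraMap, neg_zero]

/-- The rank of `P` over its Poisson center. -/
noncomputable def Poisson.rk : Cardinal :=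
  Module.rank (FractionRing B.center) (FractionRing B.center ⊗[B.center] P)

/-- The log-ozone group, generated by the `δ_f = f⁻¹ {-, f}` with `f` Poisson normal. -/
def Poisson.loz : AddSubgroup (Derivation k P P) :=
  AddSubgroup.closure {δ | ∃ f, f ≠ 0 ∧ ∀ a, B.br a f = f * δ a}

end

lemma rank_adj {Q W : Type} [Field Q] [CommRing W] [Algebra Q W] {p : ℕ} (hp : p ≠ 0) {w : W}
    {c : Q} (h : w ^ p = algebraMap Q W c) : Module.rank Q (Algebra.adjoin Q {w}) ≤ p := by
  have hm := Polynomial.monic_X_pow_sub_C c hp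
  have he : Polynomial.aeval w (Polynomial.X ^ p - Polynomial.C c) = 0 := by simp [h]
  have hi : IsIntegral Q w := ⟨_, hm, he⟩
  have := (Algebra.adjoin.powerBasis hi).finite
  rw [← Module.finrank_eq_rank, (Algebra.adjoin.powerBasis hi).finrank, Nat.cast_le]
  exact (Polynomial.natDegree_le_natDegree (minpoly.min Q _ hm he)).trans_eq
    Polynomial.natDegree_X_pow_sub_C

lemma rank_two {Q W : Type} [Field Q] [CommRing W] [Algebra Q W] {p : ℕ} (hp : p ≠ 0) {v w : W}
    {c d : Q} (h : v ^ p = algebraMap Q W c) (h' : w ^ p = algebraMap Q W d)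
    (e : Algebra.adjoin Q {v} ⊔ Algebra.adjoin Q {w} = ⊤) : Module.rank Q W ≤ p * p := by
  have h6 := (Subalgebra.rank_sup_le_of_free _ _).trans
    (mul_le_mul' (rank_adj hp h) (rank_adj hp h'))
  rwa [e, Subalgebra.rank_top] at h6

lemma rank_loc {k P : Type} [Field k] [CommRing P] [IsDomain P] [Algebra k P] (Z : Subalgebra k P)
    {p : ℕ} (hp : p ≠ 0) {v w : P} (hv : v ^ p ∈ Z) (hw : w ^ p ∈ Z)
    (h : ∀ A : Subring P, (∀ z ∈ Z, z ∈ A) → v ∈ A → w ∈ A →
      (∀ c ∈ Z, c ≠ 0 → ∀ a, c * a ∈ A → a ∈ A) → ∀ a, a ∈ A) :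
    Module.rank (FractionRing Z) (FractionRing Z ⊗[Z] P) ≤ p * p := by
  let Q := FractionRing Z
  let ι : P →ₐ[Z] Q ⊗[Z] P := Algebra.TensorProduct.includeRight
  have hι (z : Z) : ι z = algebraMap Q _ (algebraMap _ Q z) :=
    (ι.commutes z).trans (IsScalarTower.algebraMap_apply ..)
  let A := Algebra.adjoin Q {ι v} ⊔ Algebra.adjoin Q {ι w}
  have h4 := h (A.toSubring.comap ι) (fun a h => show ι a ∈ A from hι ⟨a, h⟩ ▸ A.algebraMap_mem _)
    ((le_sup_left : _ ≤ A) (Algebra.self_mem_adjoin_singleton Q _))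
    ((le_sup_right : _ ≤ A) (Algebra.self_mem_adjoin_singleton Q _)) fun c hc h0 a ha => by
      have h1 : algebraMap Z Q ⟨c, hc⟩ ≠ 0 := by
        rw [Ne, FaithfulSMul.algebraMap_eq_zero_iff]
        exact fun h => h0 (congrArg Subtype.val h)
      have h2 : ι (c * a) ∈ A := ha
      rw [map_mul, hι ⟨c, hc⟩, ← Algebra.smul_def] at h2
      have h3 := A.smul_mem h2 (algebraMap Z Q ⟨c, hc⟩)⁻¹
      rwa [inv_smul_smul₀ h1] at h3
  refine rank_two hp ((map_pow ι ..).symm.trans (hι ⟨_, hv⟩))
    ((map_pow ι ..).symm.trans (hι ⟨_, hw⟩)) (top_unique fun w _ => ?_)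
  induction w using TensorProduct.induction_on with
  | zero => exact A.zero_mem
  | tmul q a =>
    have e : q ⊗ₜ[Z] a = q • ι a := by simp [ι, smul_tmul']
    exact e ▸ A.smul_mem (show ι a ∈ A from h4 a) q
  | add a b ha hb => exact A.add_mem (ha trivial) (hb trivial)

variable (k : Type) [Field k]

abbrev P := MvPolynomial (Fin 4) k

noncomputable def V : Derivation k (P k) (P k) := mkDerivation k ![X 0 ^ 2, X 1 ^ 2, X 2 ^ 2, 0]

noncomputable abbrev D : Derivation k (P k) (P k) := pderiv 3

lemma comm (a : P k) : D k (V k a) = V k (D k a) := by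
  have : ⁅D k, V k⁆ = 0 := derivation_ext fun i => by
    fin_cases i <;> simp [Derivation.commutator_apply, V, mkDerivation_X, pderiv_X]
  have h := congrArg (· a) this
  simpa [Derivation.commutator_apply, sub_eq_zero] using h

/-- The bracket with `{x₃, xᵢ} = xᵢ²` for `i < 3` and all other brackets of variables zero. -/
noncomputable def B : Poisson k (P k) where
  br := { toFun a := D k a • V k - V k a • D k
          map_add' a b := by simp only [map_add, add_smul]; abel
          map_smul' r a := by simp [smul_sub] }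
  self a := by simp [mul_comm]
  jacobi a b c := by
    simp [comm]
    ring

lemma br_eq (a b : P k) : (B k).br a b = D k a * V k b - V k a * D k b := by simp [B]

lemma mem_center {z : P k} (h1 : D k z = 0) (h2 : V k z = 0) : z ∈ (B k).center := fun a => by
  rw [br_eq, h1, h2]; simp

variable (p : ℕ) [Fact p.Prime] [CharP k p]

omit [Fact p.Prime] in
lemma pow_mem (a : P k) : a ^ p ∈ (B k).center := mem_center k (by simp) (by simp)

lemma rk_le : (B k).rk ≤ p * p := by
  have hp := (Fact.out : p.Prime).two_le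
  refine rank_loc _ (by omega) (pow_mem k p (X 0)) (pow_mem k p (X 3)) fun A hz h0 h3 hA a => ?_
  have h2 (i : Fin 4) (e1 : D k (X i) = 0) (e2 : V k (X i) = X i ^ 2) : X i ∈ A := by
    obtain ⟨q, rfl⟩ : ∃ q, p = q + 2 := ⟨p - 2, by omega⟩
    have hs : X 0 ^ (q + 1) * X i ^ (q + 2) - X 0 ^ (q + 2) * X i ^ (q + 1) ∈ (B k).center := by
      refine mem_center k (by simp [e1]) ?_
      have e0 : V k (X 0) = X 0 ^ 2 := mkDerivation_X ..
      simp [e2, e0]
      ring
    refine hA _ (pow_mem k (q + 2) (X 0 ^ (q + 1) * X i ^ q)) (by simp) _ ?_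
    convert A.pow_mem (A.sub_mem (A.mul_mem (A.pow_mem h0 (q + 1)) (hz _ (pow_mem k _ (X i))))
      (hz _ hs)) (q + 1) using 1
    ring
  induction a using MvPolynomial.induction_on with
  | C r => exact hz _ ((B k).center.algebraMap_mem r)
  | add a b ha hb => exact A.add_mem ha hb
  | mul_X a i ha =>
    refine A.mul_mem ha ?_
    fin_cases i
    exacts [h0, h2 1 (by simp) (mkDerivation_X ..), h2 2 (by simp) (mkDerivation_X ..), h3]

omit [Fact p.Prime] in
lemma loz_ge : (p * p * p : Cardinal) ≤ Cardinal.mk (B k).loz := by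
  have h (i : Fin 3) : (X i.castSucc : P k) • D k ∈ (B k).loz :=
    AddSubgroup.subset_closure ⟨X i.castSucc, X_ne_zero _, fun a => by
      fin_cases i <;> simp [br_eq, V, mkDerivation_X, pderiv_X] <;> ring⟩
  have := Cardinal.mk_le_of_injective (f := fun c : Fin 3 → Fin p => (⟨∑ i, (c i : ℕ) •
    ((X i.castSucc : P k) • D k), sum_mem fun i _ => nsmul_mem (h i) _⟩ : (B k).loz)) fun c d e => by
      funext j
      have h1 := congrArg (fun δ : (B k).loz => eval (Pi.single j.castSucc 1) (δ.1 (X 3))) e
      refine Fin.ext (CharP.natCast_injOn_Iio k p (c j).2 (d j).2 ?_)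
      fin_cases j <;> simpa [Fin.sum_univ_three] using h1
  simpa [pow_succ] using this

/-- Over every field of prime characteristic `p` there is a graded Poisson bracket on the
polynomial ring in four variables with rank at most `p²` and log-ozone group of size at
least `p³`. -/
theorem result (k : Type) [Field k] (p : ℕ) [Fact p.Prime] [CharP k p] :
    ∃ B : Poisson k (MvPolynomial (Fin 4) k), (∀ i j, (B.br (X i) (X j)).IsHomogeneous 2) ∧
      B.rk ≤ p ^ 2 ∧ (p ^ 3 : Cardinal) ≤ Cardinal.mk B.loz ∧ B.rk < Cardinal.mk B.loz := by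
  have h1 := rk_le k p
  have h2 := loz_ge k p
  refine ⟨B k, fun i j => ?_, by rwa [sq], by rwa [pow_three'], (h1.trans_lt ?_).trans_le h2⟩
  · have h (i : Fin 4) : (X i ^ 2 : P k).IsHomogeneous 2 := isHomogeneous_X_pow i 2
    fin_cases i <;> fin_cases j <;>
      simp [br_eq, V, mkDerivation_X, pderiv_X, isHomogeneous_zero, h, IsHomogeneous.neg]
  have := (Fact.out : p.Prime).two_le
  have h3 : p * p < p * p * p := by nlinarith
  exact_mod_cast h3

end Pool.Agent.Results.MP_987c99_al.Counterexample
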